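import Pool.Agent.H.MP_44257e_co.UE.E3

/-!
# The bound `n (n+2)^2 / 2 + t` for `T = {0, 1, t}`, `k = n + t`, `4 ≤ t`, `2 t ≤ n`: definitions
-/

set_option autoImplicit false

namespace MP44257e

variable {v : ℕ}

/-- Bad pairs: not a sunflower, degree more than `(n + 2)^2 / 2`. -/
def BadU (n t : ℕ) (A : Finset (Finset (Fin v))) (x y : Fin v) : Prop :=
  x ≠ y ∧ ¬ SunT t A x y ∧ (n + 2) ^ 2 < 2 * (thr A x y).card

/-- The points `z` that are in many (more than `n / (t - 2) + 1`) of the members through `x, y`. -/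
def CC (n t : ℕ) (A : Finset (Finset (Fin v))) (x y : Fin v) : Finset (Fin v) :=
  Finset.univ.filter fun z => z ≠ x ∧ n + (t - 2) < (t - 2) * (thr3 A x y z).card

theorem mem_CC {n t : ℕ} {A : Finset (Finset (Fin v))} {x y z : Fin v} :
    z ∈ CC n t A x y ↔ z ≠ x ∧ n + (t - 2) < (t - 2) * (thr3 A x y z).card := by simp [CC]

end MP44257e
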