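import Pool.Agent.H.MP_44257e_co.UF.H0

/-!
# The kernel of a bad pair, weaker hypothesis `(n + 2)^2 < 2 m`

Copy of `UE/E2b.lean` (`exists_ker`) with `BadU` for `BadT`: every use of the lower bound of
`m = (thr A x y).card` there follows from `(n + 2)^2 < 2 m` and `2 t ≤ n`: `2 m ≥ n^2 + 4 n + 5`,
so `(t + 1)(n + 1) + 1 < m` (`2 (t + 1)(n + 1) + 2 ≤ (n + 2)(n + 1) + 2`), `(n+2)(n+1) < 2 m + n`.
-/

set_option autoImplicit false

namespace MP44257e

variable {v n t : ℕ} {A : Finset (Finset (Fin v))} {x y : Fin v}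

private theorem H1_ar {n t m : ℕ} (ht : 4 ≤ t) (hn : 2 * t ≤ n)
    (h : (n + 2) ^ 2 < 2 * m) : (t + 1) * (n + 1) + 1 < m := by
  have h1 : 2 * t * (n + 1) ≤ n * (n + 1) := Nat.mul_le_mul_right _ hn
  nlinarith

private theorem H1_low {X : Finset (Fin v)} {r : Fin v → ℕ} {m : ℕ} (hX : X.card = n + t)
    (hr : ∀ q, r q ≤ m) (hs : ∑ q ∈ X, r q = n + m * t) (hm : (n + 2) ^ 2 < 2 * m) :
    t ≤ (X.filter fun q => n + 1 < r q).card + 1 := by
  by_contra hcon
  have h1 := Finset.sum_filter_add_sum_filter_not X (fun q => n + 1 < r q) r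
  have h2 := Finset.sum_le_card_nsmul (X.filter fun q => n + 1 < r q) r m fun q _ => hr q
  have h3 := Finset.sum_le_card_nsmul (X.filter fun q => ¬ n + 1 < r q) r (n + 1) fun q hq =>
    not_lt.1 (Finset.mem_filter.1 hq).2
  have h4 := Finset.card_filter_add_card_filter_not (s := X) (fun q => n + 1 < r q)
  rw [smul_eq_mul] at h2 h3
  generalize (X.filter fun q => n + 1 < r q).card = b at *
  generalize (X.filter fun q => ¬ n + 1 < r q).card = c at *
  obtain ⟨d, rfl⟩ : ∃ d, t = b + 2 + d := ⟨t - (b + 2), by omega⟩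
  obtain rfl : c = n + 2 + d := by omega
  have h5 : n + 1 ≤ m := by nlinarith
  have h6 := Nat.mul_le_mul_left d h5
  nlinarith

private theorem H1_up {X : Finset (Fin v)} {r : Fin v → ℕ} {m : ℕ} (hX : X.card = n + t)
    (hr : ∀ q ∈ X, 1 ≤ r q) (hb : ∀ q, n + 1 < r q → m ≤ r q + (n + 1))
    (hs : ∑ q ∈ X, r q = n + m * t) (hm : (t + 1) * (n + 1) + 1 < m) :
    (X.filter fun q => n + 1 < r q).card ≤ t := by
  by_contra hcon
  have h0 : n + 1 ≤ m := by nlinarith
  obtain ⟨m', rfl⟩ := Nat.exists_eq_add_of_le' h0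
  have h1 := Finset.sum_filter_add_sum_filter_not X (fun q => n + 1 < r q) r
  have h2 := Finset.card_nsmul_le_sum (X.filter fun q => n + 1 < r q) r m' fun q hq =>
    Nat.le_of_add_le_add_right (hb q (Finset.mem_filter.1 hq).2)
  have h3 := Finset.card_nsmul_le_sum (X.filter fun q => ¬ n + 1 < r q) r 1 fun q hq =>
    hr q (Finset.mem_filter.1 hq).1
  have h4 := Finset.card_filter_add_card_filter_not (s := X) (fun q => n + 1 < r q)
  rw [smul_eq_mul] at h2 h3
  generalize (X.filter fun q => n + 1 < r q).card = b at *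
  generalize (X.filter fun q => ¬ n + 1 < r q).card = c at *
  obtain ⟨d, rfl⟩ : ∃ d, b = t + 1 + d := ⟨b - (t + 1), by omega⟩
  have h5 : 1 ≤ m' := by nlinarith
  have h6 := Nat.mul_le_mul_left d h5
  nlinarith

private theorem H1_thr3 (z : Fin v) :
    thr3 A x y z = (thr A x y).filter fun X => z ∈ X := by
  ext X
  rw [Finset.mem_filter, mem_thr3, mem_thr]
  tauto

theorem exists_kerU (ht : 4 ≤ t) (hn : 2 * t ≤ n) (hA : IsFam [0, 1, t] (n + t) A)
    (hb : BadU n t A x y) : ∃ K, Ker n t A x y K := by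
  obtain ⟨hxy, hsun, hm1⟩ := hb
  have hm2 := H1_ar ht hn hm1
  have ht2 : 2 ≤ t := by omega
  obtain ⟨m, hm⟩ : ∃ m, (thr A x y).card = m := ⟨_, rfl⟩
  obtain ⟨r, hr⟩ : ∃ r : Fin v → ℕ, r = fun z => (thr3 A x y z).card := ⟨_, rfl⟩
  have hr' : ∀ z, r z = ((thr A x y).filter fun X => z ∈ X).card := fun z => by
    rw [hr]
    exact congrArg Finset.card (H1_thr3 z)
  have hrm : ∀ z, r z ≤ m := fun z => by
    rw [hr', ← hm]
    exact Finset.card_filter_le _ _
  have hrx : ∀ z, (∀ X ∈ thr A x y, z ∈ X) → r z = m := fun z hz => by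
    rw [hr', ← hm, Finset.filter_true_of_mem hz]
  have hdich : ∀ z, n + 1 < r z → m ≤ r z + (n + 1) := by
    intro z hz
    have h := dichotomy ht2 hA hxy hm1 z
    rw [hm] at h
    have h' : r z ≤ n + 1 ∨ m ≤ r z + (n + 1) := by
      rw [hr]
      exact h
    omega
  rw [hm] at hm1 hm2
  have hcard : ∀ X ∈ thr A x y, X.card = n + t := fun X hX => hA.1 X (mem_thr.1 hX).1
  have hsum : ∀ X ∈ thr A x y, ∑ q ∈ X, r q = n + m * t := by
    intro X hX
    have h := sum_thrT ht2 hA hxy hX
    rw [hm] at h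
    rw [hr]
    show ∑ q ∈ X, (thr3 A x y q).card = n + m * t
    omega
  have hpos : ∀ X ∈ thr A x y, ∀ q ∈ X, 1 ≤ r q := by
    intro X hX q hq
    rw [hr']
    exact Finset.card_pos.2 ⟨X, Finset.mem_filter.2 ⟨hX, hq⟩⟩
  obtain ⟨β, hβ⟩ : ∃ β : Finset (Fin v), β = Finset.univ.filter fun q => n + 1 < r q := ⟨_, rfl⟩
  have hmβ : ∀ q, q ∈ β ↔ n + 1 < r q := fun q => by
    rw [hβ, Finset.mem_filter]
    exact ⟨fun h => h.2, fun h => ⟨Finset.mem_univ q, h⟩⟩
  have hXβ : ∀ X : Finset (Fin v), (X.filter fun q => n + 1 < r q) = β.filter fun q => q ∈ X := by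
    intro X
    ext q
    rw [Finset.mem_filter, Finset.mem_filter, hmβ]
    exact and_comm
  have hlow : ∀ X ∈ thr A x y, t ≤ (β.filter fun q => q ∈ X).card + 1 := by
    intro X hX
    rw [← hXβ]
    exact H1_low (hcard X hX) hrm (hsum X hX) hm1
  have hup : ∀ X ∈ thr A x y, (β.filter fun q => q ∈ X).card ≤ t := by
    intro X hX
    rw [← hXβ]
    exact H1_up (hcard X hX) (hpos X hX) hdich (hsum X hX) hm2
  -- the number of big points
  have hdc : ∑ q ∈ β, r q = ∑ X ∈ thr A x y, (β.filter fun q => q ∈ X).card := by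
    rw [Finset.sum_congr rfl fun q _ => hr' q]
    simp only [Finset.card_filter]
    exact Finset.sum_comm
  have hβt : β.card ≤ t := by
    by_contra hcon
    have h1 : ∑ X ∈ thr A x y, (β.filter fun q => q ∈ X).card ≤ m * t := by
      have h := Finset.sum_le_card_nsmul (thr A x y) (fun X => (β.filter fun q => q ∈ X).card) t hup
      rw [hm, smul_eq_mul] at h
      exact h
    have h0 : n + 1 ≤ m := by nlinarith
    obtain ⟨m', hm'⟩ := Nat.exists_eq_add_of_le' h0
    have h2 := Finset.card_nsmul_le_sum β r m' fun q hq => by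
      have h3 := hdich q ((hmβ q).1 hq)
      omega
    rw [smul_eq_mul, hdc] at h2
    have h3 : (t + 1) * m' ≤ β.card * m' := Nat.mul_le_mul_right _ (by omega)
    nlinarith
  have hxin : ∀ X ∈ thr A x y, x ∈ X := fun X hX => (mem_thr.1 hX).2.1
  have hyin : ∀ X ∈ thr A x y, y ∈ X := fun X hX => (mem_thr.1 hX).2.2
  have hmn : n + 1 < m := by nlinarith
  have hxβ : x ∈ β := (hmβ x).2 (by rw [hrx x hxin]; exact hmn)
  have hyβ : y ∈ β := (hmβ y).2 (by rw [hrx y hyin]; exact hmn)
  rcases Nat.lt_or_ge β.card t with hlt | hge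
  · -- at most `t - 1` big points
    have hsub : ∀ X ∈ thr A x y, β ⊆ X ∧ β.card + 1 = t := by
      intro X hX
      have h1 := hlow X hX
      have h2 := Finset.card_filter_le β fun q => q ∈ X
      have h3 : (β.filter fun q => q ∈ X) = β :=
        Finset.eq_of_subset_of_card_le (Finset.filter_subset _ _) (by omega)
      refine ⟨fun q hq => ?_, by omega⟩
      rw [← h3] at hq
      exact (Finset.mem_filter.1 hq).2
    obtain ⟨X₀, hX₀⟩ : (thr A x y).Nonempty := Finset.card_pos.1 (by omega)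
    refine ⟨β, (hsub X₀ hX₀).2, hxβ, hyβ, fun X hX => (hsub X hX).1, fun z hz => ?_⟩
    have h1 : ¬ n + 1 < r z := fun h => hz ((hmβ z).2 h)
    rw [hr] at h1
    exact not_lt.1 h1
  · exfalso
    have hβc : β.card = t := le_antisymm hβt hge
    obtain ⟨G, hG, hGβ⟩ : ∃ G ∈ thr A x y, ¬ β ⊆ G := by
      by_contra hcon
      push Not at hcon
      exact hsun ⟨β, hβc, hxβ, hyβ, hcon⟩
    have hGA := (mem_thr.1 hG).1
    have hG1 : (β.filter fun q => q ∈ G).card + 1 = t := by
      have h1 := hlow G hG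
      have h2 : (β.filter fun q => q ∈ G).card < β.card := by
        refine Finset.card_lt_card (Finset.ssubset_iff_subset_ne.2
          ⟨Finset.filter_subset _ _, fun h => hGβ fun q hq => ?_⟩)
        rw [← h] at hq
        exact (Finset.mem_filter.1 hq).2
      omega
    obtain ⟨E, hE⟩ : ∃ E, E = (thr A x y).filter fun X => β ⊆ X := ⟨_, rfl⟩
    have hEm : m ≤ E.card + t * (n + 1) := by
      have h1 : thr A x y ⊆ E ∪ β.biUnion fun q => (thr A x y).filter fun X => q ∉ X := by
        intro X hX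
        by_cases h : β ⊆ X
        · refine Finset.mem_union_left _ ?_
          rw [hE]
          exact Finset.mem_filter.2 ⟨hX, h⟩
        · obtain ⟨q, hq, hq'⟩ := Finset.not_subset.1 h
          exact Finset.mem_union_right _ (Finset.mem_biUnion.2
            ⟨q, hq, Finset.mem_filter.2 ⟨hX, hq'⟩⟩)
      have h2 : (β.biUnion fun q => (thr A x y).filter fun X => q ∉ X).card ≤ t * (n + 1) := by
        rw [← hβc]
        refine Finset.card_biUnion_le_card_mul _ _ _ fun q hq => ?_
        have h3 := hdich q ((hmβ q).1 hq)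
        rw [hr'] at h3
        have h4 := Finset.card_filter_add_card_filter_not (s := thr A x y) (fun X => q ∈ X)
        rw [hm] at h4
        omega
      have h3 := (Finset.card_le_card h1).trans (Finset.card_union_le _ _)
      omega
    have hEp : ∀ X, ∃ p, X ∈ E → p ∈ X ∧ p ∈ G ∧ p ∉ β := by
      intro X
      by_cases hX : X ∈ E
      · rw [hE] at hX
        obtain ⟨hX1, hX2⟩ := Finset.mem_filter.1 hX
        have hne : X ≠ G := fun h => hGβ (h ▸ hX2)
        have h1 : (X ∩ G).card = t := interT ht2 hA (mem_thr.1 hX1).1 hGA hne hxy (hxin X hX1)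
          (hyin X hX1) (hxin G hG) (hyin G hG)
        have h2 : ¬ X ∩ G ⊆ β.filter fun q => q ∈ G := by
          intro h
          have h3 := Finset.card_le_card h
          omega
        obtain ⟨p, hp, hp'⟩ := Finset.not_subset.1 h2
        obtain ⟨hp1, hp2⟩ := Finset.mem_inter.1 hp
        exact ⟨p, fun _ => ⟨hp1, hp2, fun h => hp' (Finset.mem_filter.2 ⟨h, hp2⟩)⟩⟩
      · exact ⟨x, fun h => absurd h hX⟩
    choose p hp using hEp
    have hEle : E.card ≤ (G \ (β.filter fun q => q ∈ G)).card := by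
      refine Finset.card_le_card_of_injOn p (fun X hX => ?_) ?_
      · obtain ⟨h1, h2, h3⟩ := hp X hX
        exact Finset.mem_coe.2 (Finset.mem_sdiff.2 ⟨h2, fun h => h3 (Finset.mem_filter.1 h).1⟩)
      · intro X hX Y hY heq
        by_contra hne
        obtain ⟨h1, h2, h3⟩ := hp X hX
        obtain ⟨h4, -, -⟩ := hp Y hY
        have hX' := hX
        have hY' := hY
        rw [hE] at hX' hY'
        obtain ⟨hX1, hX2⟩ := Finset.mem_filter.1 (Finset.mem_coe.1 hX')
        obtain ⟨hY1, hY2⟩ := Finset.mem_filter.1 (Finset.mem_coe.1 hY')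
        have h5 := interT_le (by omega : 1 ≤ t) hA (mem_thr.1 hX1).1 (mem_thr.1 hY1).1 hne
        have h6 : insert (p X) β ⊆ X ∩ Y := by
          intro q hq
          rcases Finset.mem_insert.1 hq with rfl | hq
          · refine Finset.mem_inter.2 ⟨h1, ?_⟩
            have h7 : p X = p Y := heq
            rw [h7]
            exact h4
          · exact Finset.mem_inter.2 ⟨hX2 hq, hY2 hq⟩
        have h7 := Finset.card_le_card h6
        rw [Finset.card_insert_of_notMem h3, hβc] at h7
        omega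
    have hGc : (G \ (β.filter fun q => q ∈ G)).card = n + 1 := by
      have hs : (β.filter fun q => q ∈ G) ⊆ G := fun q hq => (Finset.mem_filter.1 hq).2
      rw [Finset.card_sdiff_of_subset hs, hcard G hG]
      omega
    rw [hGc] at hEle
    nlinarith

end MP44257e
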