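import Pool.Agent.H.MP_44257e_co.UF.H0

/-!
# The members through `x` that do not contain `y`, for a bad pair `x, y`

Adapt `UE/E3b.lean` (`closedT`). Let `κ = |B ∩ K|`, `1 ≤ κ ≤ t - 2` (`x ∈ B`, `y ∉ B`),
`S0 = (B ∩ Yu A x y) \ K`. For `X ∈ thr A x y`: `X ≠ B`, `x ∈ X ∩ B`, so `|X ∩ B|` is 1 or `t`,
`|X ∩ S0| ∈ {1 - κ, t - κ}`.
`capK`: `κ ≥ 2`: `|X ∩ S0| = c = t - κ ≥ 2` for all `X`; `c m = ∑_{p ∈ S0} r_p ≤ (n + 1)(n + c)`
(`|S0| ≤ n + t - κ = n + c`), so `2 m ≤ (n + 1)(n + 2)`: contradiction to `(n + 2)^2 < 2 m`.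
`small_r`: `κ = 1` by `capK`. Let `q ∈ B`, `q ∉ K`, `r_q = (thr3 A x y q).card` (if it is 0 nothing to
do). Each of the `r_q` members through `x, y, q` has exactly `t - 1` points in `S0`, `t - 2` besides
`q`; different such members share only `K` and `q`, so
`1 + r_q (t - 2) ≤ |S0| ≤ n + t - 1`.
-/

set_option autoImplicit false

namespace MP44257e

variable {v n t : ℕ} {A : Finset (Finset (Fin v))} {x y : Fin v} {K : Finset (Fin v)}

private theorem H2_thr3 (A : Finset (Finset (Fin v))) (x y q : Fin v) :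
    thr3 A x y q = (thr A x y).filter fun X => q ∈ X := by
  ext X
  rw [mem_thr3, Finset.mem_filter, mem_thr]
  tauto

private theorem H2_dc (A : Finset (Finset (Fin v))) (x y : Fin v) (S : Finset (Fin v)) :
    ∑ q ∈ S, (thr3 A x y q).card = ∑ X ∈ thr A x y, (X ∩ S).card := by
  simp only [H2_thr3, Finset.card_filter]
  rw [Finset.sum_comm]
  refine Finset.sum_congr rfl fun X _ => ?_
  rw [← Finset.card_filter, Finset.filter_mem_eq_inter, Finset.inter_comm]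

private theorem H2_c {m c : ℕ} (hm2 : (n + 2) ^ 2 < 2 * m) (hc : 2 ≤ c)
    (h : m * c ≤ (n + c) * (n + 1)) : False := by
  obtain ⟨d, rfl⟩ := Nat.exists_eq_add_of_le hc
  have h1 : (n + 2) ^ 2 * (2 + d) ≤ 2 * m * (2 + d) := Nat.mul_le_mul_right _ hm2.le
  nlinarith [Nat.zero_le (d * n), Nat.zero_le (d * n ^ 2)]

/-- The members through `x, y` and `B`. -/
private theorem H2_setup (hA : IsFam [0, 1, t] (n + t) A) (hK : Ker n t A x y K)
    {B : Finset (Fin v)} (hB : B ∈ A) (hx : x ∈ B) (hy : y ∉ B) :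
    (∀ X ∈ thr A x y, (X ∩ B).card = (B ∩ K).card + (X ∩ (B \ K)).card) ∧
    (∀ X ∈ thr A x y, (X ∩ B).card = 1 ∨ (X ∩ B).card = t) ∧
    1 ≤ (B ∩ K).card ∧ (B ∩ K).card + 2 ≤ t ∧ (B ∩ K).card + (B \ K).card = n + t := by
  classical
  obtain ⟨hKc, hxK, hyK, hKs, hKr⟩ := hK
  refine ⟨?_, ?_, ?_, ?_, ?_⟩
  · intro X hX
    have h1 : X ∩ B = (B ∩ K) ∪ (X ∩ (B \ K)) := by
      ext q
      rw [Finset.mem_union, Finset.mem_inter, Finset.mem_inter, Finset.mem_inter,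
        Finset.mem_sdiff]
      constructor
      · rintro ⟨h1, h2⟩
        by_cases h3 : q ∈ K
        · exact Or.inl ⟨h2, h3⟩
        · exact Or.inr ⟨h1, h2, h3⟩
      · rintro (⟨h1, h2⟩ | ⟨h1, h2, -⟩)
        · exact ⟨hKs X hX h2, h1⟩
        · exact ⟨h1, h2⟩
    rw [h1, Finset.card_union_of_disjoint]
    rw [Finset.disjoint_left]
    intro q hq hq'
    exact (Finset.mem_sdiff.1 (Finset.mem_inter.1 hq').2).2 (Finset.mem_inter.1 hq).2
  · intro X hX
    obtain ⟨h1, h2, h3⟩ := mem_thr.1 hX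
    have hne : X ≠ B := by
      rintro rfl
      exact hy h3
    have h5 := hA.2 X h1 B hB hne
    have h6 : 0 < (X ∩ B).card := Finset.card_pos.2 ⟨x, Finset.mem_inter.2 ⟨h2, hx⟩⟩
    simp only [List.mem_cons, List.not_mem_nil, or_false] at h5
    omega
  · exact Finset.card_pos.2 ⟨x, Finset.mem_inter.2 ⟨hx, hxK⟩⟩
  · have h1 : B ∩ K ⊆ K.erase y := by
      intro q hq
      obtain ⟨h2, h3⟩ := Finset.mem_inter.1 hq
      refine Finset.mem_erase.2 ⟨?_, h3⟩
      rintro rfl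
      exact hy h2
    have h2 := Finset.card_le_card h1
    have h3 : 0 < K.card := Finset.card_pos.2 ⟨x, hxK⟩
    rw [Finset.card_erase_of_mem hyK] at h2
    have h4 : 2 ≤ K.card := by
      have h5 : x ≠ y := by
        rintro rfl
        exact hy hx
      have h6 : ({x, y} : Finset (Fin v)) ⊆ K := by
        intro q hq
        rcases Finset.mem_insert.1 hq with h7 | h7
        · exact h7 ▸ hxK
        · exact (Finset.mem_singleton.1 h7) ▸ hyK
      have h8 := Finset.card_le_card h6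
      rw [Finset.card_pair h5] at h8
      exact h8
    omega
  · rw [← hA.1 B hB]
    exact Finset.card_inter_add_card_sdiff B K

private theorem H2_one (ht : 4 ≤ t) (hA : IsFam [0, 1, t] (n + t) A)
    (hb : BadU n t A x y) (hK : Ker n t A x y K) {B : Finset (Fin v)} (hB : B ∈ A) (hx : x ∈ B)
    (hy : y ∉ B) : (B ∩ K).card = 1 := by
  classical
  obtain ⟨h1, h2, h3, h4, h5⟩ := H2_setup hA hK hB hx hy
  obtain ⟨hxy, -, hm⟩ := hb
  obtain ⟨hKc, hxK, hyK, hKs, hKr⟩ := hK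
  by_contra hne
  have h6 : ∀ X ∈ thr A x y, (X ∩ (B \ K)).card = t - (B ∩ K).card := by
    intro X hX
    have h7 := h1 X hX
    have h8 := h2 X hX
    omega
  have hSr : ∑ q ∈ B \ K, (thr3 A x y q).card ≤ (B \ K).card * (n + 1) := by
    rw [← smul_eq_mul, ← Finset.sum_const]
    exact Finset.sum_le_sum fun q hq => hKr q (Finset.mem_sdiff.1 hq).2
  rw [H2_dc, Finset.sum_const_nat h6] at hSr
  have h9 : (B \ K).card = n + (t - (B ∩ K).card) := by omega
  rw [h9] at hSr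
  exact H2_c hm (c := t - (B ∩ K).card) (by omega) hSr

theorem capK (ht : 4 ≤ t) (hn : 2 * t ≤ n) (hA : IsFam [0, 1, t] (n + t) A)
    (hb : BadU n t A x y) (hK : Ker n t A x y K) {B : Finset (Fin v)} (hB : B ∈ A) (hx : x ∈ B)
    (hy : y ∉ B) : B ∩ K = {x} := by
  have h1 := H2_one ht hA hb hK hB hx hy
  obtain ⟨z, hz⟩ := Finset.card_eq_one.1 h1
  have h2 : x ∈ B ∩ K := Finset.mem_inter.2 ⟨hx, hK.2.1⟩
  rw [hz, Finset.mem_singleton] at h2
  rw [hz, h2]

theorem small_r (ht : 4 ≤ t) (hn : 2 * t ≤ n) (hA : IsFam [0, 1, t] (n + t) A)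
    (hb : BadU n t A x y) (hK : Ker n t A x y K) {B : Finset (Fin v)} (hB : B ∈ A) (hx : x ∈ B)
    (hy : y ∉ B) {q : Fin v} (hq : q ∈ B) (hqK : q ∉ K) :
    (t - 2) * (thr3 A x y q).card ≤ n + (t - 2) := by
  classical
  have hone := H2_one ht hA hb hK hB hx hy
  obtain ⟨k1, k2, -, -, k5⟩ := H2_setup hA hK hB hx hy
  obtain ⟨hKc, hxK, hyK, hKs, hKr⟩ := hK
  have hqS : q ∈ B \ K := Finset.mem_sdiff.2 ⟨hq, hqK⟩
  have h1 : ∀ X ∈ thr3 A x y q, ((X ∩ (B \ K)).erase q).card = t - 2 := by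
    intro X hX
    obtain ⟨h2, h3, h4, h5⟩ := mem_thr3.1 hX
    have h6 := k1 X (mem_thr.2 ⟨h2, h3, h4⟩)
    have h7 := k2 X (mem_thr.2 ⟨h2, h3, h4⟩)
    have h8 : 0 < (X ∩ (B \ K)).card := Finset.card_pos.2 ⟨q, Finset.mem_inter.2 ⟨h5, hqS⟩⟩
    rw [Finset.card_erase_of_mem (Finset.mem_inter.2 ⟨h5, hqS⟩)]
    omega
  have h2 : ∀ X ∈ thr3 A x y q, ∀ Y ∈ thr3 A x y q, X ≠ Y →
      Disjoint ((X ∩ (B \ K)).erase q) ((Y ∩ (B \ K)).erase q) := by
    intro X hX Y hY hne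
    obtain ⟨a1, a2, a3, a4⟩ := mem_thr3.1 hX
    obtain ⟨b1, b2, b3, b4⟩ := mem_thr3.1 hY
    rw [Finset.disjoint_left]
    intro z hz hz'
    obtain ⟨c1, c2⟩ := Finset.mem_erase.1 hz
    obtain ⟨c3, c4⟩ := Finset.mem_inter.1 c2
    have c5 := (Finset.mem_inter.1 (Finset.mem_erase.1 hz').2).1
    have h3 := interT_le (by omega) hA a1 b1 hne
    have h4 : insert z (insert q K) ⊆ X ∩ Y := by
      intro w hw
      rw [Finset.mem_insert, Finset.mem_insert] at hw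
      rcases hw with rfl | rfl | hw
      · exact Finset.mem_inter.2 ⟨c3, c5⟩
      · exact Finset.mem_inter.2 ⟨a4, b4⟩
      · exact Finset.mem_inter.2 ⟨hKs X (mem_thr.2 ⟨a1, a2, a3⟩) hw,
          hKs Y (mem_thr.2 ⟨b1, b2, b3⟩) hw⟩
    have h5 := Finset.card_le_card h4
    have h7 : z ∉ insert q K := by
      rw [Finset.mem_insert]
      rintro (h8 | h8)
      · exact c1 h8
      · exact (Finset.mem_sdiff.1 c4).2 h8
    rw [Finset.card_insert_of_notMem h7, Finset.card_insert_of_notMem hqK] at h5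
    omega
  have h3 := Finset.card_biUnion h2
  rw [Finset.sum_const_nat h1] at h3
  have h4 : ((thr3 A x y q).biUnion fun X => (X ∩ (B \ K)).erase q) ⊆ (B \ K).erase q := by
    intro z hz
    obtain ⟨X, hX, hzX⟩ := Finset.mem_biUnion.1 hz
    obtain ⟨c1, c2⟩ := Finset.mem_erase.1 hzX
    exact Finset.mem_erase.2 ⟨c1, (Finset.mem_inter.1 c2).2⟩
  have h5 := Finset.card_le_card h4
  rw [h3, Finset.card_erase_of_mem hqS, Nat.mul_comm] at h5
  omega

end MP44257e
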