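import Pool.Agent.H.MP_44257e_co.UF.H1
import Pool.Agent.H.MP_44257e_co.UF.H2

/-!
# The component `CC` of a bad pair

`m = (thr A x y).card`, `K` from `exists_kerU`, `r_z = (thr3 A x y z).card`.
`thr_sub`: let `B ∋ x, z`. If `y ∉ B`: by `capK` (`z ≠ x`) `z ∉ K`, then `small_r` contradicts
`z ∈ CC`. So `y ∈ B`.
`comp_pos`: `K.erase x ⊆ CC` (`t - 2` points, `r = m`, `(t-2) m > n + t - 2`; `thr A x z` has `m`
members: `⊆` is `thr_sub`, `⊇` since `z ∈ K`). `G = CC \ K`: for `z ∈ G`, `(thr A x z).card = r_z ≤ n + 1`.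
Every `X ∈ thr A x y` contains a point of `G`: else all `n + 1` points `q` of `X \ K` have
`(t-2) r_q ≤ n + t - 2`, and `sum_off` gives `(t-2)(m + n) ≤ (n+1)(n + t - 2)`, so
`2 (m - 1) ≤ (t-2)(m-1) ≤ n^2 + n`, contradiction. So `m ≤ ∑_{z ∈ G} r_z ≤ (n + 1) |G|`. With
`V = v - t`: `n (∑_{z ∈ CC} deg) ≤ n (t-2) m + n (n+1) |G| ≤ n (n+1)(t-1) |G| < V |G| + V (t-2) =
V |CC|`, because `2 n (n+1)(t-1) ≤ n (n+2)^2 < 2 V`.
-/

set_option autoImplicit false

namespace MP44257e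

variable {v n t : ℕ} {A : Finset (Finset (Fin v))} {x y : Fin v}

private theorem H3_eq {z : Fin v} {K : Finset (Fin v)} (hKs : ∀ X ∈ thr A x y, K ⊆ X)
    (hz : z ∈ K) : thr3 A x y z = thr A x y := by
  ext X
  rw [mem_thr3, mem_thr]
  constructor
  · rintro ⟨h1, h2, h3, -⟩
    exact ⟨h1, h2, h3⟩
  · rintro ⟨h1, h2, h3⟩
    exact ⟨h1, h2, h3, hKs X (mem_thr.2 ⟨h1, h2, h3⟩) hz⟩

private theorem H3_big {m : ℕ} (ht : 4 ≤ t) (hn : 2 * t ≤ n) (hm : (n + 2) ^ 2 < 2 * m) :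
    n + (t - 2) < (t - 2) * m := by
  have h1 : 2 * m ≤ (t - 2) * m := Nat.mul_le_mul_right m (by omega)
  have h2 : n + (t - 2) ≤ 2 * n := by omega
  nlinarith

private theorem H3_fin {m g R V : ℕ} (ht : 4 ≤ t) (hn : 2 * t ≤ n) (hm : m ≤ R)
    (hR : R ≤ g * (n + 1)) (hV : n * (n + 2) ^ 2 < 2 * V) :
    ((t - 2) * m + R) * n < ((t - 2) + g) * V := by
  obtain ⟨u, rfl⟩ := Nat.exists_eq_add_of_le (show 2 ≤ t by omega)
  rw [Nat.add_sub_cancel_left]
  have hu : 2 ≤ u := by omega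
  have h1 : u * m + R ≤ (u + 1) * (g * (n + 1)) := by
    have h2 : u * m ≤ u * (g * (n + 1)) := Nat.mul_le_mul_left u (hm.trans hR)
    have h3 : (u + 1) * (g * (n + 1)) = u * (g * (n + 1)) + g * (n + 1) := by ring
    omega
  have h2 : n * ((n + 1) * (2 * (u + 1))) ≤ n * (n + 2) ^ 2 := by
    refine Nat.mul_le_mul_left n ?_
    have h3 : 2 * (u + 1) ≤ n + 2 := by omega
    calc (n + 1) * (2 * (u + 1)) ≤ (n + 2) * (n + 2) :=
          Nat.mul_le_mul (by omega) h3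
      _ = (n + 2) ^ 2 := by ring
  have h3 : n * ((n + 1) * (u + 1)) < V := by
    have h4 : n * ((n + 1) * (2 * (u + 1))) = 2 * (n * ((n + 1) * (u + 1))) := by ring
    omega
  calc (u * m + R) * n ≤ (u + 1) * (g * (n + 1)) * n := Nat.mul_le_mul_right n h1
    _ = g * (n * ((n + 1) * (u + 1))) := by ring
    _ ≤ g * V := Nat.mul_le_mul_left g h3.le
    _ < (u + g) * V := by
        have h4 : (u + g) * V = u * V + g * V := by ring
        have h5 : 0 < u * V := Nat.mul_pos (by omega) (by omega)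
        omega

theorem thr_sub (ht : 4 ≤ t) (hn : 2 * t ≤ n) (hA : IsFam [0, 1, t] (n + t) A)
    (hb : BadU n t A x y) {z : Fin v} (hz : z ∈ CC n t A x y) : thr A x z ⊆ thr A x y := by
  intro B hB
  obtain ⟨h1, h2, h3⟩ := mem_thr.1 hB
  obtain ⟨K, hK⟩ := exists_kerU ht hn hA hb
  obtain ⟨hzx, hzr⟩ := mem_CC.1 hz
  by_contra hc
  have hy : y ∉ B := fun h4 => hc (mem_thr.2 ⟨h1, h2, h4⟩)
  have hzK : z ∉ K := by
    intro h4
    have h5 : z ∈ B ∩ K := Finset.mem_inter.2 ⟨h3, h4⟩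
    rw [capK ht hn hA hb hK h1 h2 hy, Finset.mem_singleton] at h5
    exact hzx h5
  exact absurd (small_r ht hn hA hb hK h1 h2 hy h3 hzK) (not_le_of_gt hzr)

theorem mem_CC_self (ht : 4 ≤ t) (hn : 2 * t ≤ n) (hb : BadU n t A x y) :
    y ∈ CC n t A x y := by
  obtain ⟨hxy, -, hm⟩ := hb
  have h1 : thr3 A x y y = thr A x y := by
    ext X
    rw [mem_thr3, mem_thr]
    tauto
  rw [mem_CC, h1]
  exact ⟨hxy.symm, H3_big ht hn hm⟩

theorem comp_pos (ht : 4 ≤ t) (hn : 2 * t ≤ n) (hA : IsFam [0, 1, t] (n + t) A)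
    (hb : BadU n t A x y) (hv : n * (n + 2) ^ 2 + 2 * t < 2 * v) :
    (∑ z ∈ CC n t A x y, (thr A x z).card) * n < (CC n t A x y).card * (v - t) := by
  classical
  obtain ⟨K, hK⟩ := exists_kerU ht hn hA hb
  have hsub : ∀ z ∈ CC n t A x y, thr A x z ⊆ thr A x y := fun z hz => thr_sub ht hn hA hb hz
  obtain ⟨hxy, -, hm⟩ := hb
  have hK' := hK
  obtain ⟨hKc, hxK, hyK, hKs, hKr⟩ := hK
  have hKC : K.erase x ⊆ CC n t A x y := by
    intro z hz
    obtain ⟨h1, h2⟩ := Finset.mem_erase.1 hz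
    rw [mem_CC, H3_eq hKs h2]
    exact ⟨h1, H3_big ht hn hm⟩
  obtain ⟨G, hG⟩ : ∃ G, G = CC n t A x y \ K := ⟨_, rfl⟩
  have hGmem : ∀ z, z ∈ G ↔ z ∈ CC n t A x y ∧ z ∉ K := by
    intro z
    rw [hG, Finset.mem_sdiff]
  have hCC : CC n t A x y = K.erase x ∪ G := by
    ext z
    rw [Finset.mem_union, hGmem]
    constructor
    · intro h1
      by_cases h2 : z ∈ K
      · exact Or.inl (Finset.mem_erase.2 ⟨(mem_CC.1 h1).1, h2⟩)
      · exact Or.inr ⟨h1, h2⟩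
    · rintro (h1 | h1)
      · exact hKC h1
      · exact h1.1
  have hdisj : Disjoint (K.erase x) G := by
    rw [Finset.disjoint_left]
    intro z h1 h2
    exact ((hGmem z).1 h2).2 (Finset.mem_of_mem_erase h1)
  have hKe : (K.erase x).card = t - 2 := by
    rw [Finset.card_erase_of_mem hxK]
    omega
  have hd1 : ∀ z ∈ K.erase x, (thr A x z).card = (thr A x y).card := by
    intro z hz
    congr 1
    refine Finset.Subset.antisymm (hsub z (hKC hz)) ?_
    intro X hX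
    obtain ⟨h1, h2, h3⟩ := mem_thr.1 hX
    exact mem_thr.2 ⟨h1, h2, hKs X hX (Finset.mem_of_mem_erase hz)⟩
  have hd2 : ∀ z ∈ G, (thr A x z).card = (thr3 A x y z).card := by
    intro z hz
    congr 1
    ext X
    rw [mem_thr3, mem_thr]
    constructor
    · rintro ⟨h1, h2, h3⟩
      have h4 := hsub z ((hGmem z).1 hz).1 (mem_thr.2 ⟨h1, h2, h3⟩)
      exact ⟨h1, h2, (mem_thr.1 h4).2.2, h3⟩
    · rintro ⟨h1, h2, -, h3⟩
      exact ⟨h1, h2, h3⟩
  have hsum : ∑ z ∈ CC n t A x y, (thr A x z).card =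
      (t - 2) * (thr A x y).card + ∑ z ∈ G, (thr3 A x y z).card := by
    rw [hCC, Finset.sum_union hdisj, Finset.sum_congr rfl hd1, Finset.sum_const, smul_eq_mul, hKe,
      Finset.sum_congr rfl hd2]
  have hcard : (CC n t A x y).card = (t - 2) + G.card := by
    rw [hCC, Finset.card_union_of_disjoint hdisj, hKe]
  have hmeet : ∀ X ∈ thr A x y, ∃ z ∈ G, z ∈ X := by
    intro X hX
    by_contra hc
    push Not at hc
    have hoff := sum_off ht hA hxy hK' hX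
    have hXA := (mem_thr.1 hX).1
    have hc1 : (X \ K).card = n + 1 := by
      rw [Finset.card_sdiff_of_subset (hKs X hX), hA.1 X hXA]
      omega
    have h1 : ∀ q ∈ X \ K, (t - 2) * (thr3 A x y q).card ≤ n + (t - 2) := by
      intro q hq
      obtain ⟨h2, h3⟩ := Finset.mem_sdiff.1 hq
      by_contra h4
      refine hc q ((hGmem q).2 ⟨mem_CC.2 ⟨?_, not_le.1 h4⟩, h3⟩) h2
      rintro rfl
      exact h3 hxK
    have h2 : (t - 2) * ((thr A x y).card + n) ≤ (n + 1) * (n + (t - 2)) := by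
      rw [← hoff, Finset.mul_sum, ← hc1, ← smul_eq_mul, ← Finset.sum_const]
      exact Finset.sum_le_sum h1
    obtain ⟨u, rfl⟩ := Nat.exists_eq_add_of_le (show 2 ≤ t by omega)
    rw [Nat.add_sub_cancel_left] at h2
    have h3 : 1 ≤ (thr A x y).card := by
      by_contra h4
      have h5 : (thr A x y).card = 0 := by omega
      rw [h5] at hm
      omega
    obtain ⟨d, hd⟩ := Nat.exists_eq_add_of_le h3
    rw [hd] at h2 hm
    have h4 : 2 * d ≤ u * d := Nat.mul_le_mul_right d (by omega)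
    nlinarith
  have hle : (thr A x y).card ≤ ∑ z ∈ G, (thr3 A x y z).card := by
    refine le_trans (Finset.card_le_card ?_) Finset.card_biUnion_le
    intro X hX
    obtain ⟨z, hz, hzX⟩ := hmeet X hX
    obtain ⟨h1, h2, h3⟩ := mem_thr.1 hX
    exact Finset.mem_biUnion.2 ⟨z, hz, mem_thr3.2 ⟨h1, h2, h3, hzX⟩⟩
  have hGs : ∑ z ∈ G, (thr3 A x y z).card ≤ G.card * (n + 1) := by
    rw [← smul_eq_mul, ← Finset.sum_const]
    exact Finset.sum_le_sum fun z hz => hKr z ((hGmem z).1 hz).2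
  rw [hsum, hcard]
  refine H3_fin ht hn hle hGs ?_
  omega

end MP44257e
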