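import Pool.Agent.H.MP_44257e_co.UF.H1
import Pool.Agent.H.MP_44257e_co.UF.H2

/-!
# Two components are equal or disjoint

`K, K'` the kernels (`exists_kerU`) of `x, y` and `x, y'`, `m = (thr A x y).card`. Show
`thr A x y = thr A x y'` (then `CC` are equal, as `thr3 A x y z = (thr A x y).filter (z ∈ ·)`).
Every member `B` through `x, z` contains `y` (if not, `capK` and `z ≠ x` give `z ∉ K`, and `small_r`
contradicts `z ∈ CC n t A x y`), so it is in `thr A x y` and contains `K`; and so for `y'`, `K'`.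
The number `r` of the members through `x, z` is at least 2 (`(t-2) r > n + t - 2`).
Case `z ∈ K`: `thr A x y ⊆ thr A x z ⊆ thr A x y'`; then all `m > n + 1` members of `thr A x y` are in
`thr3 A x y' y`, so `y ∈ K'` (`Ker`: off `K'` at most `n + 1`), so `thr A x y' ⊆ thr A x y`.
Case `z ∈ K'`: symmetric. Case `z ∉ K`, `z ∉ K'`: take two different members `X1, X2` through `x, z`:
`K ∪ K' ∪ {z} ⊆ X1 ∩ X2`, at most `t` points (`interT_le`), so `|K ∪ K'| ≤ t - 1`, `K = K'`; so `y' ∈ K`,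
`y ∈ K'`, and the two families are equal.
-/

set_option autoImplicit false

namespace MP44257e

variable {v n t : ℕ} {A : Finset (Finset (Fin v))} {x y : Fin v}

private theorem H4_CC {y' : Fin v} (h : thr A x y = thr A x y') :
    CC n t A x y = CC n t A x y' := by
  have h3 : ∀ z, thr3 A x y z = thr3 A x y' z := by
    intro z
    ext X
    rw [mem_thr3, mem_thr3]
    constructor
    · rintro ⟨h1, h2, h4, h5⟩
      have h6 : X ∈ thr A x y := mem_thr.2 ⟨h1, h2, h4⟩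
      rw [h] at h6
      exact ⟨h1, h2, (mem_thr.1 h6).2.2, h5⟩
    · rintro ⟨h1, h2, h4, h5⟩
      have h6 : X ∈ thr A x y' := mem_thr.2 ⟨h1, h2, h4⟩
      rw [← h] at h6
      exact ⟨h1, h2, (mem_thr.1 h6).2.2, h5⟩
  ext z
  rw [mem_CC, mem_CC, h3]

private theorem H4_key (ht : 4 ≤ t) (hn : 2 * t ≤ n) (hA : IsFam [0, 1, t] (n + t) A)
    (hb : BadU n t A x y) {K : Finset (Fin v)} (hK : Ker n t A x y K) {z : Fin v}
    (hz : z ∈ CC n t A x y) {B : Finset (Fin v)} (hB : B ∈ A) (hx : x ∈ B) (hzB : z ∈ B) :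
    y ∈ B := by
  by_contra hy
  obtain ⟨h1, h2⟩ := mem_CC.1 hz
  have h3 : z ∉ K := by
    intro h
    have h4 : z ∈ B ∩ K := Finset.mem_inter.2 ⟨hzB, h⟩
    rw [capK ht hn hA hb hK hB hx hy, Finset.mem_singleton] at h4
    exact h1 h4
  have h5 := small_r ht hn hA hb hK hB hx hy hzB h3
  omega

private theorem H4_mem (ht : 4 ≤ t) (hn : 2 * t ≤ n) (hA : IsFam [0, 1, t] (n + t) A) {y' : Fin v}
    (hb : BadU n t A x y) (hb' : BadU n t A x y') {K K' : Finset (Fin v)}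
    (hK : Ker n t A x y K) (hK' : Ker n t A x y' K') {z : Fin v}
    (hz' : z ∈ CC n t A x y') (hzK : z ∈ K) : thr A x y = thr A x y' := by
  have h1 : ∀ X ∈ thr A x y, y' ∈ X := by
    intro X hX
    obtain ⟨h2, h3, h4⟩ := mem_thr.1 hX
    exact H4_key ht hn hA hb' hK' hz' h2 h3 (hK.2.2.2.1 X hX hzK)
  have h2 : y ∈ K' := by
    by_contra h
    have h3 := hK'.2.2.2.2 y h
    have h4 : thr A x y ⊆ thr3 A x y' y := by
      intro X hX
      obtain ⟨h5, h6, h7⟩ := mem_thr.1 hX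
      exact mem_thr3.2 ⟨h5, h6, h1 X hX, h7⟩
    have h5 := Finset.card_le_card h4
    have h6 := hb.2.2
    have h7 : (n + 2) ^ 2 = n * n + 4 * n + 4 := by ring
    have h8 : 8 * n ≤ n * n := Nat.mul_le_mul_right n (by omega)
    omega
  ext X
  constructor
  · intro hX
    obtain ⟨h3, h4, h5⟩ := mem_thr.1 hX
    exact mem_thr.2 ⟨h3, h4, h1 X hX⟩
  · intro hX
    obtain ⟨h3, h4, h5⟩ := mem_thr.1 hX
    exact mem_thr.2 ⟨h3, h4, hK'.2.2.2.1 X hX h2⟩

theorem comp_eqU (ht : 4 ≤ t) (hn : 2 * t ≤ n) (hA : IsFam [0, 1, t] (n + t) A) {y' : Fin v}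
    (hb : BadU n t A x y) (hb' : BadU n t A x y') {z : Fin v} (hz : z ∈ CC n t A x y)
    (hz' : z ∈ CC n t A x y') : CC n t A x y = CC n t A x y' := by
  obtain ⟨K, hK⟩ := exists_kerU ht hn hA hb
  obtain ⟨K', hK'⟩ := exists_kerU ht hn hA hb'
  by_cases h1 : z ∈ K
  · exact H4_CC (H4_mem ht hn hA hb hb' hK hK' hz' h1)
  by_cases h2 : z ∈ K'
  · exact (H4_CC (H4_mem ht hn hA hb' hb hK' hK hz h2)).symm
  -- two members through `x, z`
  have h3 : 1 < (thr3 A x y z).card := by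
    by_contra h
    have h4 := (mem_CC.1 hz).2
    have h5 : (t - 2) * (thr3 A x y z).card ≤ (t - 2) * 1 :=
      Nat.mul_le_mul_left _ (by omega)
    omega
  obtain ⟨X1, hX1, X2, hX2, hne⟩ := Finset.one_lt_card.1 h3
  have hs : ∀ X ∈ thr3 A x y z, insert z (K ∪ K') ⊆ X := by
    intro X hX
    obtain ⟨h4, h5, h6, h7⟩ := mem_thr3.1 hX
    have h8 : y' ∈ X := H4_key ht hn hA hb' hK' hz' h4 h5 h7
    have h9 := hK.2.2.2.1 X (mem_thr.2 ⟨h4, h5, h6⟩)
    have h10 := hK'.2.2.2.1 X (mem_thr.2 ⟨h4, h5, h8⟩)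
    exact Finset.insert_subset h7 (Finset.union_subset h9 h10)
  have h4 : (insert z (K ∪ K')).card ≤ t :=
    (Finset.card_le_card (Finset.subset_inter (hs X1 hX1) (hs X2 hX2))).trans
      (interT_le (by omega) hA (mem_thr3.1 hX1).1 (mem_thr3.1 hX2).1 hne)
  rw [Finset.card_insert_of_notMem (by
    rw [Finset.mem_union]
    exact not_or.2 ⟨h1, h2⟩)] at h4
  have hc := hK.1
  have hc' := hK'.1
  have e1 : K = K ∪ K' := Finset.eq_of_subset_of_card_le Finset.subset_union_left (by omega)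
  have e2 : K' = K ∪ K' := Finset.eq_of_subset_of_card_le Finset.subset_union_right (by omega)
  have e3 : K = K' := e1.trans e2.symm
  apply H4_CC
  ext X
  constructor
  · intro hX
    obtain ⟨h5, h6, h7⟩ := mem_thr.1 hX
    exact mem_thr.2 ⟨h5, h6, hK.2.2.2.1 X hX (e3 ▸ hK'.2.2.1)⟩
  · intro hX
    obtain ⟨h5, h6, h7⟩ := mem_thr.1 hX
    exact mem_thr.2 ⟨h5, h6, hK'.2.2.2.1 X hX (e3 ▸ hK.2.2.1)⟩

end MP44257e
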