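import Pool.Agent.H.MP_44257e_co.UF.H3
import Pool.Agent.H.MP_44257e_co.UF.H4
import Pool.Agent.H.MP_44257e_co.UE.E4

/-!
# The sum at a point

Adapt `UE/E5.lean` (`point_sumT`): the components are now `CC n t A x y`, `y` bad (`BadU`); a bad
`y` is in its own component (`mem_CC_self`), `x` is in none (`mem_CC`), two components with a common
point are equal (`comp_eqU`), over a component `(∑ deg) n < card (v - t)` (`comp_pos`). For `z ≠ x`
in no component: `z` is not bad; if `SunT`, `deg n ≤ v - t` (`sunT_le`); if not `SunT`,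
`2 deg ≤ (n + 2)^2`, so `deg n < v - t` by `hv`. So the sum is at most `(v - 1)(v - t)`, and in the case
of equality there is no component, and every pair is `SunT` with `deg n = v - t`.
-/

set_option autoImplicit false

namespace MP44257e

variable {v n t : ℕ} {A : Finset (Finset (Fin v))}

theorem point_sumU (ht : 4 ≤ t) (hn : 2 * t ≤ n) (hA : IsFam [0, 1, t] (n + t) A)
    (hv : n * (n + 2) ^ 2 + 2 * t < 2 * v) (x : Fin v) :
    (∑ y ∈ Finset.univ.erase x, (thr A x y).card) * n ≤ (v - 1) * (v - t) ∧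
    ((∑ y ∈ Finset.univ.erase x, (thr A x y).card) * n = (v - 1) * (v - t) →
      ∀ y, y ≠ x → SunT t A x y ∧ (thr A x y).card * n = v - t) := by
  classical
  have hvt : t ≤ v := by
    have h0 : 0 ≤ n * (n + 2) ^ 2 := Nat.zero_le _
    omega
  have hv1 : 1 ≤ v := by
    have := x.2
    omega
  have hn0 : (0 : ℤ) ≤ n := Int.natCast_nonneg n
  have hvZ : (n : ℤ) * (n + 2) ^ 2 + 2 * t < 2 * v := by exact_mod_cast hv
  obtain ⟨w, hw⟩ : ∃ w : Fin v → ℤ, w = fun z => (v : ℤ) - t - n * ((thr A x z).card : ℤ) :=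
    ⟨_, rfl⟩
  -- the sum over a component
  have hcomp : ∀ y, BadU n t A x y → 0 < ∑ z ∈ CC n t A x y, w z := by
    intro y hb
    have h1 := comp_pos ht hn hA hb hv
    have h2 : (((∑ z ∈ CC n t A x y, (thr A x z).card) * n : ℕ) : ℤ) <
        (((CC n t A x y).card * (v - t) : ℕ) : ℤ) := by exact_mod_cast h1
    rw [Nat.cast_mul (CC n t A x y).card, Nat.cast_sub hvt] at h2
    push_cast at h2
    have e2 : ∑ z ∈ CC n t A x y, w z = ((CC n t A x y).card : ℤ) *
        (v - t) - n * ∑ z ∈ CC n t A x y, ((thr A x z).card : ℤ) := by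
      rw [hw, Finset.sum_sub_distrib, Finset.sum_const, nsmul_eq_mul, ← Finset.mul_sum]
    rw [e2, mul_comm (n : ℤ)]
    linarith
  obtain ⟨P, hP⟩ : ∃ P : Finset (Fin v), ∀ y, y ∈ P ↔ BadU n t A x y :=
    ⟨Finset.univ.filter fun y => BadU n t A x y, fun y => by simp⟩
  obtain ⟨Q, hQ⟩ : ∃ Q, Q = P.image fun y => CC n t A x y := ⟨_, rfl⟩
  have hdisj : (Q : Set (Finset (Fin v))).PairwiseDisjoint id := by
    intro T hT T' hT' hne
    rw [Finset.mem_coe, hQ, Finset.mem_image] at hT hT'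
    obtain ⟨y, hy, rfl⟩ := hT
    obtain ⟨y', hy', rfl⟩ := hT'
    show Disjoint (CC n t A x y) (CC n t A x y')
    rw [Finset.disjoint_left]
    intro p hp hp'
    exact hne (comp_eqU ht hn hA ((hP y).1 hy) ((hP y').1 hy') hp hp')
  have hQpos : ∀ T ∈ Q, 0 < ∑ z ∈ T, w z := by
    intro T hT
    rw [hQ, Finset.mem_image] at hT
    obtain ⟨y, hy, rfl⟩ := hT
    exact hcomp y ((hP y).1 hy)
  obtain ⟨U, hU⟩ : ∃ U, U = Q.biUnion id := ⟨_, rfl⟩
  have hUsum : ∑ z ∈ U, w z = ∑ T ∈ Q, ∑ z ∈ T, w z := by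
    rw [hU, Finset.sum_biUnion hdisj]
    rfl
  have hUsub : U ⊆ Finset.univ.erase x := by
    intro q hq
    rw [hU, Finset.mem_biUnion] at hq
    obtain ⟨T, hT, hqT⟩ := hq
    rw [hQ, Finset.mem_image] at hT
    obtain ⟨y, hy, rfl⟩ := hT
    exact Finset.mem_erase.2 ⟨(mem_CC.1 hqT).1, Finset.mem_univ _⟩
  have hbadU : ∀ z, BadU n t A x z → z ∈ U := by
    intro z hb
    rw [hU, Finset.mem_biUnion]
    refine ⟨CC n t A x z, ?_, mem_CC_self ht hn hb⟩
    rw [hQ]
    exact Finset.mem_image_of_mem _ ((hP z).2 hb)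
  have hrest : ∀ z, z ≠ x → z ∉ U → 0 ≤ w z ∧
      (w z = 0 → SunT t A x z ∧ (thr A x z).card * n = v - t) := by
    intro z hzx hzU
    have hwz : w z = (v : ℤ) - t - (((thr A x z).card * n : ℕ) : ℤ) := by
      rw [hw]
      push_cast
      ring
    by_cases hsun : SunT t A x z
    · have h1 := sunT_le (by omega) hA hzx.symm hvt hsun
      constructor
      · rw [hwz]
        omega
      · intro h0
        refine ⟨hsun, ?_⟩
        rw [hwz] at h0
        omega
    · have hnb : ¬ BadU n t A x z := fun hb => hzU (hbadU z hb)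
      have h1 : 2 * (thr A x z).card ≤ (n + 2) ^ 2 := by
        by_contra hcon
        exact hnb ⟨hzx.symm, hsun, by omega⟩
      have h1Z : 2 * ((thr A x z).card : ℤ) ≤ ((n : ℤ) + 2) ^ 2 := by exact_mod_cast h1
      have h2 : (n : ℤ) * (2 * ((thr A x z).card : ℤ)) ≤ n * ((n : ℤ) + 2) ^ 2 :=
        mul_le_mul_of_nonneg_left h1Z hn0
      have h3 : 0 < w z := by
        rw [hw]
        show 0 < (v : ℤ) - t - n * ((thr A x z).card : ℤ)
        have e1 : (n : ℤ) * (2 * ((thr A x z).card : ℤ)) =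
            2 * (n * ((thr A x z).card : ℤ)) := by ring
        rw [e1] at h2
        linarith
      exact ⟨h3.le, fun h0 => absurd h0 h3.ne'⟩
  have htot : ∑ z ∈ Finset.univ.erase x, w z = ((v : ℤ) - 1) * (v - t) -
      (((∑ y ∈ Finset.univ.erase x, (thr A x y).card) * n : ℕ) : ℤ) := by
    have e1 : ((Finset.univ.erase x).card : ℤ) = (v : ℤ) - 1 := by
      rw [Finset.card_erase_of_mem (Finset.mem_univ x), Finset.card_univ, Fintype.card_fin,
        Nat.cast_sub hv1, Nat.cast_one]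
    rw [hw, Finset.sum_sub_distrib, Finset.sum_const, nsmul_eq_mul, ← Finset.mul_sum, e1]
    push_cast
    ring
  have hsplit := Finset.sum_sdiff (f := w) hUsub
  have hR : 0 ≤ ∑ z ∈ Finset.univ.erase x \ U, w z := by
    refine Finset.sum_nonneg fun z hz => ?_
    rw [Finset.mem_sdiff, Finset.mem_erase] at hz
    exact (hrest z hz.1.1 hz.2).1
  have hU0 : 0 ≤ ∑ z ∈ U, w z := by
    rw [hUsum]
    exact Finset.sum_nonneg fun T hT => (hQpos T hT).le
  have hcast : ((((v - 1) * (v - t)) : ℕ) : ℤ) = ((v : ℤ) - 1) * (v - t) := by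
    rw [Nat.cast_mul, Nat.cast_sub hv1, Nat.cast_sub hvt]
    push_cast
    ring
  refine ⟨?_, fun heq => ?_⟩
  · have h1 : (((∑ y ∈ Finset.univ.erase x, (thr A x y).card) * n : ℕ) : ℤ) ≤
        ((((v - 1) * (v - t)) : ℕ) : ℤ) := by
      rw [hcast]
      linarith
    exact_mod_cast h1
  · have h0 : ∑ z ∈ Finset.univ.erase x, w z = 0 := by
      rw [htot, heq, hcast, sub_self]
    have hQe : Q = ∅ := by
      by_contra hne
      obtain ⟨T, hT⟩ := Finset.nonempty_iff_ne_empty.2 hne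
      have h1 : 0 < ∑ z ∈ U, w z := by
        rw [hUsum]
        exact Finset.sum_pos hQpos ⟨T, hT⟩
      linarith
    have hUe : U = ∅ := by
      rw [hU, hQe]
      rfl
    intro y hyx
    have hyU : y ∉ U := by
      rw [hUe]
      exact Finset.notMem_empty _
    refine (hrest y hyx hyU).2 ?_
    have hnn' : ∀ z ∈ Finset.univ.erase x, 0 ≤ w z := by
      intro z hz
      refine (hrest z (Finset.mem_erase.1 hz).1 ?_).1
      rw [hUe]
      exact Finset.notMem_empty _
    exact (Finset.sum_eq_zero_iff_of_nonneg hnn').1 h0 y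
      (Finset.mem_erase.2 ⟨hyx, Finset.mem_univ _⟩)

end MP44257e
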